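import Pool.Agent.MT100.Stmts

/-! Module HGT of MT100: the entries of `Hyp D` are power series of G-type. -/

set_option autoImplicit false

namespace Pool.Agent.MT100.H19

open Finset

/-! ### Binomial coefficients of rational numbers -/

theorem fact_dvd (p q k : ℕ) : k.factorial ∣ q ^ k * ∏ j ∈ range k, (q * j + p) := by
  rw [Nat.dvd_iff_prime_pow_dvd_dvd]
  intro l e hl hle
  have := Fact.mk hl
  by_cases hq : l ∣ q
  · have h1 : e ≤ k := by
      have h2 : e ≤ padicValNat l k.factorial :=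
        (padicValNat_dvd_iff_le (Nat.factorial_ne_zero k)).mp hle
      have h3 := sub_one_mul_padicValNat_factorial (p := l) k
      have h4 : 1 ≤ l - 1 := by have := hl.two_le; omega
      have h5 : padicValNat l k.factorial ≤ (l - 1) * padicValNat l k.factorial :=
        Nat.le_mul_of_pos_left _ h4
      omega
    exact Dvd.dvd.mul_right ((pow_dvd_pow _ h1).trans (pow_dvd_pow_of_dvd hq k)) _
  · have hc : Nat.Coprime q (l ^ e) :=
      (Nat.Coprime.pow_left e ((Nat.Prime.coprime_iff_not_dvd hl).mpr hq)).symm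
    refine Dvd.dvd.mul_left ?_ _
    have : NeZero (l ^ e) := ⟨pow_ne_zero _ hl.ne_zero⟩
    obtain ⟨u, hu⟩ := (ZMod.isUnit_iff_coprime q (l ^ e)).mpr hc
    obtain ⟨x, hx⟩ : ∃ x : ℕ, (x : ZMod (l ^ e)) = ↑u⁻¹ * (p : ZMod (l ^ e)) :=
      ⟨_, ZMod.natCast_zmod_val _⟩
    have h1 : (q : ZMod (l ^ e)) * x = p := by
      rw [hx, ← hu, ← mul_assoc, Units.mul_inv, one_mul]
    rw [← ZMod.natCast_eq_zero_iff]
    have h2 : ((∏ j ∈ range k, (q * j + p) : ℕ) : ZMod (l ^ e)) =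
        (q : ZMod (l ^ e)) ^ k * ((x.ascFactorial k : ℕ) : ZMod (l ^ e)) := by
      rw [Nat.ascFactorial_eq_prod_range]
      push_cast
      rw [← Finset.card_range k, ← Finset.prod_const, Finset.card_range, ← Finset.prod_mul_distrib]
      refine Finset.prod_congr rfl fun j _ => ?_
      rw [mul_add, h1]
      ring
    rw [h2, (ZMod.natCast_eq_zero_iff (x.ascFactorial k) (l ^ e)).mpr
      (hle.trans (Nat.factorial_dvd_ascFactorial x k)), mul_zero]

/-- the subring of the integers -/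
noncomputable abbrev Zr : Subring ℚ := (Int.castRingHom ℚ).range

theorem mem_Zr {x : ℚ} : x ∈ Zr ↔ ∃ z : ℤ, x = z :=
  ⟨fun ⟨z, hz⟩ => ⟨z, hz.symm⟩, fun ⟨z, hz⟩ => ⟨z, hz.symm⟩⟩

theorem nat_mem (n : ℕ) : (n : ℚ) ∈ Zr := mem_Zr.mpr ⟨n, by simp⟩

theorem int_mem (n : ℤ) : (n : ℚ) ∈ Zr := mem_Zr.mpr ⟨n, rfl⟩

/-- the binomial coefficient of `x + k - 1` -/
theorem bin_mem {x : ℚ} {p q : ℕ} (hq : 0 < q) (hx : x = p / q) (k : ℕ) :
    (q : ℚ) ^ (2 * k) * ∏ j ∈ range k, (((j : ℚ) + x) * ((j : ℚ) + 1)⁻¹) ∈ Zr := by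
  obtain ⟨c, hc⟩ := fact_dvd p q k
  have hq' : (q : ℚ) ≠ 0 := by exact_mod_cast hq.ne'
  have h1 : ∏ j ∈ range k, ((j : ℚ) + 1)⁻¹ = ((k.factorial : ℕ) : ℚ)⁻¹ := by
    rw [Finset.prod_inv_distrib, ← Finset.prod_range_add_one_eq_factorial]
    push_cast
    rfl
  have h2 : ((q : ℚ) ^ k * ∏ j ∈ range k, ((q : ℚ) * j + p)) = (k.factorial : ℚ) * c := by
    exact_mod_cast hc
  have h3 : (q : ℚ) ^ k * ∏ j ∈ range k, ((j : ℚ) + x) = ∏ j ∈ range k, ((q : ℚ) * j + p) := by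
    rw [← Finset.card_range k, ← Finset.prod_const, Finset.card_range, ← Finset.prod_mul_distrib]
    refine Finset.prod_congr rfl fun j _ => ?_
    rw [hx]
    field_simp
  have h4 : (q : ℚ) ^ (2 * k) * ∏ j ∈ range k, (((j : ℚ) + x) * ((j : ℚ) + 1)⁻¹) = c := by
    rw [Finset.prod_mul_distrib, h1, two_mul, pow_add]
    have h5 : ((k.factorial : ℕ) : ℚ) ≠ 0 := by exact_mod_cast k.factorial_ne_zero
    calc _ = ((q : ℚ) ^ k * ((q : ℚ) ^ k * ∏ j ∈ range k, ((j : ℚ) + x))) *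
          ((k.factorial : ℕ) : ℚ)⁻¹ := by ring
      _ = _ := by rw [h3, h2]; field_simp
  rw [h4]
  exact nat_mem c

/-! ### Denominators -/

/-- all `dᵐ [εᵐ] f` are integers -/
def IB (d : ℕ) (f : PowerSeries ℚ) : Prop := ∀ m, (d : ℚ) ^ m * PowerSeries.coeff m f ∈ Zr

theorem IB.mul {d : ℕ} {f g : PowerSeries ℚ} (hf : IB d f) (hg : IB d g) : IB d (f * g) := by
  intro m
  rw [PowerSeries.coeff_mul, Finset.mul_sum]
  refine Subring.sum_mem _ fun p hp => ?_
  rw [← Finset.HasAntidiagonal.mem_antidiagonal.mp hp, pow_add]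
  have h := Subring.mul_mem _ (hf p.1) (hg p.2)
  have h' : (d : ℚ) ^ p.1 * (d : ℚ) ^ p.2 * (PowerSeries.coeff p.1 f * PowerSeries.coeff p.2 g) =
      (d : ℚ) ^ p.1 * PowerSeries.coeff p.1 f * ((d : ℚ) ^ p.2 * PowerSeries.coeff p.2 g) := by
    ring
  rw [h']
  exact h

theorem IB.one (d : ℕ) : IB d 1 := by
  intro m
  rw [PowerSeries.coeff_one]
  split_ifs with h
  · subst h; simp
  · simp

theorem IB.prod {d : ℕ} {ι : Type*} (s : Finset ι) (f : ι → PowerSeries ℚ)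
    (h : ∀ i ∈ s, IB d (f i)) : IB d (∏ i ∈ s, f i) := by
  classical
  induction s using Finset.induction_on with
  | empty => simpa using IB.one d
  | insert a s ha ih =>
    rw [Finset.prod_insert ha]
    exact (h a (Finset.mem_insert_self _ _)).mul
      (ih fun i hi => h i (Finset.mem_insert_of_mem hi))

theorem IB.pow {d : ℕ} {f : PowerSeries ℚ} (hf : IB d f) (n : ℕ) : IB d (f ^ n) := by
  induction n with
  | zero => simpa using IB.one d
  | succ n ih => rw [pow_succ]; exact ih.mul hf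

/-- `1 + c ε` -/
noncomputable def lin (c : ℚ) : PowerSeries ℚ := 1 + PowerSeries.C c * PowerSeries.X

/-- `1 / (1 + c ε)` -/
noncomputable def geo (c : ℚ) : PowerSeries ℚ := PowerSeries.mk fun m => (-c) ^ m

theorem lin_geo (c : ℚ) : lin c * geo c = 1 := by
  ext m
  rw [lin, add_mul, one_mul, map_add, mul_assoc, PowerSeries.coeff_C_mul]
  cases m with
  | zero => simp [geo]
  | succ m =>
    rw [PowerSeries.coeff_succ_X_mul, geo, PowerSeries.coeff_mk, PowerSeries.coeff_mk,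
      PowerSeries.coeff_one, if_neg (Nat.succ_ne_zero m)]
    ring

theorem IB.lin {d : ℕ} {c : ℚ} (h : (d : ℚ) * c ∈ Zr) : IB d (lin c) := by
  intro m
  rw [H19.lin, map_add, PowerSeries.coeff_one, PowerSeries.coeff_C_mul, PowerSeries.coeff_X]
  rcases m with _ | _ | m
  · simpa using Subring.one_mem _
  · simpa using h
  · simpa using Subring.zero_mem _

theorem IB.geo {d : ℕ} {c : ℚ} (h : (d : ℚ) * c ∈ Zr) : IB d (geo c) := by
  intro m
  rw [H19.geo, PowerSeries.coeff_mk, ← mul_pow]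
  refine Subring.pow_mem _ ?_ m
  rw [mul_neg]
  exact Subring.neg_mem _ h

theorem C_add_X {a : ℚ} (ha : a ≠ 0) :
    PowerSeries.C a + PowerSeries.X = PowerSeries.C a * lin a⁻¹ := by
  rw [lin, mul_add, mul_one, ← mul_assoc, ← map_mul, mul_inv_cancel₀ ha, map_one, one_mul]

theorem C_add_X_inv {a : ℚ} (ha : a ≠ 0) :
    (PowerSeries.C a + PowerSeries.X : PowerSeries ℚ)⁻¹ = PowerSeries.C a⁻¹ * geo a⁻¹ := by
  have h : (PowerSeries.C a + PowerSeries.X : PowerSeries ℚ) *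
      (PowerSeries.C a⁻¹ * geo a⁻¹) = 1 := by
    rw [C_add_X ha]
    calc _ = (PowerSeries.C a * PowerSeries.C a⁻¹) * (lin a⁻¹ * geo a⁻¹) := by ring
      _ = 1 := by rw [lin_geo, ← map_mul, mul_inv_cancel₀ ha, map_one, one_mul]
  have h0 : PowerSeries.constantCoeff (PowerSeries.C a + PowerSeries.X : PowerSeries ℚ) ≠ 0 := by
    simpa using ha
  exact ((PowerSeries.eq_inv_iff_mul_eq_one h0).mpr (by rw [mul_comm]; exact h)).symm

/-- the constant term of `A_k` -/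
noncomputable def a0 (D : Dat) (k : ℕ) : ℚ :=
  ∏ j ∈ range k, (D.lam * ∏ i : Fin D.s, (((j : ℚ) + D.al i) * ((j : ℚ) + 1)⁻¹) *
    (((j : ℚ) + (1 - D.al i)) * ((j : ℚ) + 1)⁻¹))

/-- the normalized `A_k` -/
noncomputable def gk (D : Dat) (k : ℕ) : PowerSeries ℚ :=
  ∏ j ∈ range k, ∏ i : Fin D.s, (lin ((j : ℚ) + D.al i)⁻¹ * lin ((j : ℚ) + (1 - D.al i))⁻¹ *
    geo ((j : ℚ) + 1)⁻¹ ^ 2)

theorem Ak_eq (D : Dat) (k : ℕ) : Ak D k = PowerSeries.C (a0 D k) * gk D k := by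
  rw [Ak, a0, gk, map_prod, ← Finset.prod_mul_distrib]
  refine Finset.prod_congr rfl fun j _ => ?_
  rw [map_mul, mul_assoc, map_prod, ← Finset.prod_mul_distrib]
  congr 1
  refine Finset.prod_congr rfl fun i _ => ?_
  have h1 := D.al_pos i
  have h2 := D.al_lt i
  have hj : (0 : ℚ) ≤ j := by positivity
  have e1 : (j : ℚ) + D.al i ≠ 0 := by positivity
  have e2 : (j : ℚ) + (1 - D.al i) ≠ 0 := by
    have : 0 < (j : ℚ) + (1 - D.al i) := by linarith
    exact this.ne'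
  have e3 : (j : ℚ) + 1 ≠ 0 := by positivity
  rw [C_add_X e1, C_add_X e2, C_add_X_inv e3, map_mul, map_mul, map_mul]
  ring

/-- a common denominator of the exponents -/
theorem exists_q (D : Dat) : ∃ q : ℕ, 0 < q ∧ ∀ i, ∃ p : ℕ, 0 < p ∧ p < q ∧ D.al i = p / q := by
  refine ⟨∏ i, (D.al i).den, Finset.prod_pos fun i _ => (D.al i).den_pos, fun i => ?_⟩
  have h0 : (0 : ℚ) < (∏ i, (D.al i).den : ℕ) := by
    exact_mod_cast Finset.prod_pos fun i _ => (D.al i).den_pos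
  obtain ⟨m, hm⟩ : (D.al i).den ∣ ∏ i, (D.al i).den := Finset.dvd_prod_of_mem _ (Finset.mem_univ i)
  have h1 : D.al i = ((D.al i).num.toNat : ℚ) / (D.al i).den := by
    have h2 : ((D.al i).num.toNat : ℤ) = (D.al i).num :=
      Int.toNat_of_nonneg (Rat.num_nonneg.mpr (D.al_pos i).le)
    have h3 : ((D.al i).num.toNat : ℚ) = ((D.al i).num : ℚ) := by exact_mod_cast h2
    rw [h3, Rat.num_div_den]
  have hm0 : (m : ℚ) ≠ 0 := by
    intro h
    have h' : m = 0 := by exact_mod_cast h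
    rw [h', mul_zero] at hm
    rw [hm] at h0
    simp at h0
  have h4 : D.al i = (((D.al i).num.toNat * m : ℕ) : ℚ) / ((∏ i, (D.al i).den : ℕ) : ℚ) := by
    rw [hm]
    push_cast
    rw [mul_div_mul_right _ _ hm0]
    exact h1
  refine ⟨(D.al i).num.toNat * m, ?_, ?_, h4⟩
  · have h5 := D.al_pos i
    rw [h4] at h5
    have h6 := (div_pos_iff_of_pos_right h0).mp h5
    exact_mod_cast h6
  · have h5 := D.al_lt i
    rw [h4, div_lt_one h0] at h5
    exact_mod_cast h5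

theorem a0_mem (D : Dat) {q : ℕ} (hq : 0 < q)
    (h : ∀ i, ∃ p : ℕ, 0 < p ∧ p < q ∧ D.al i = p / q) (k : ℕ) :
    ((D.lam.den * q ^ (4 * D.s) : ℕ) : ℚ) ^ k * a0 D k ∈ Zr := by
  have h1 : a0 D k = D.lam ^ k * ∏ i : Fin D.s,
      ((∏ j ∈ range k, (((j : ℚ) + D.al i) * ((j : ℚ) + 1)⁻¹)) *
        ∏ j ∈ range k, (((j : ℚ) + (1 - D.al i)) * ((j : ℚ) + 1)⁻¹)) := by
    rw [a0, Finset.prod_mul_distrib, Finset.prod_const, Finset.card_range, Finset.prod_comm]
    congr 1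
    refine Finset.prod_congr rfl fun i _ => ?_
    rw [← Finset.prod_mul_distrib]
  have h2 : ((D.lam.den * q ^ (4 * D.s) : ℕ) : ℚ) ^ k * a0 D k =
      ((D.lam.den : ℚ) * D.lam) ^ k * ∏ i : Fin D.s,
      (((q : ℚ) ^ (2 * k) * ∏ j ∈ range k, (((j : ℚ) + D.al i) * ((j : ℚ) + 1)⁻¹)) *
        ((q : ℚ) ^ (2 * k) * ∏ j ∈ range k, (((j : ℚ) + (1 - D.al i)) * ((j : ℚ) + 1)⁻¹))) := by
    rw [h1]
    have h3 : ∀ (f g : Fin D.s → ℚ), ∏ i, (((q : ℚ) ^ (2 * k) * f i) * ((q : ℚ) ^ (2 * k) * g i)) =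
        ((q : ℚ) ^ (4 * D.s)) ^ k * ∏ i, (f i * g i) := by
      intro f g
      have h4 : ∀ i : Fin D.s, (((q : ℚ) ^ (2 * k) * f i) * ((q : ℚ) ^ (2 * k) * g i)) =
          (q : ℚ) ^ (4 * k) * (f i * g i) := fun i => by ring
      rw [Finset.prod_congr rfl fun i _ => h4 i, Finset.prod_mul_distrib, Finset.prod_const,
        Finset.card_univ, Fintype.card_fin]
      congr 1
      rw [← pow_mul, ← pow_mul]
      congr 1
      ring
    rw [h3]
    push_cast
    ring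
  rw [h2]
  refine Subring.mul_mem _ (Subring.pow_mem _ ?_ _) (Subring.prod_mem _ fun i _ => ?_)
  · have h5 : (D.lam.den : ℚ) * D.lam = D.lam.num := by
      rw [mul_comm]; exact Rat.mul_den_eq_num D.lam
    rw [h5]
    exact int_mem _
  · obtain ⟨p, hp, hpq, hi⟩ := h i
    refine Subring.mul_mem _ (bin_mem hq hi k) (bin_mem (p := q - p) hq ?_ k)
    have hq' : (q : ℚ) ≠ 0 := by exact_mod_cast hq.ne'
    rw [hi, Nat.cast_sub hpq.le]
    field_simp

theorem gk_IB (D : Dat) {q : ℕ} (hq : 0 < q)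
    (h : ∀ i, ∃ p : ℕ, 0 < p ∧ p < q ∧ D.al i = p / q) {k K : ℕ} (hk : k ≤ K) :
    IB (Nat.lcmUpto (q * K)) (gk D k) := by
  have key : ∀ m : ℕ, 1 ≤ m → m ≤ q * K → ∀ c : ℕ,
      (Nat.lcmUpto (q * K) : ℚ) * ((c : ℚ) / m) ∈ Zr := by
    intro m h1 h2 c
    obtain ⟨e, he⟩ : m ∣ Nat.lcmUpto (q * K) :=
      Finset.dvd_lcm (f := id) (Finset.mem_Icc.mpr ⟨h1, h2⟩)
    have hm : (m : ℚ) ≠ 0 := by exact_mod_cast (by omega : m ≠ 0)
    have : (Nat.lcmUpto (q * K) : ℚ) * ((c : ℚ) / m) = ((e * c : ℕ) : ℚ) := by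
      rw [he]
      push_cast
      field_simp
    rw [this]
    exact nat_mem _
  have hq' : (q : ℚ) ≠ 0 := by exact_mod_cast hq.ne'
  refine IB.prod _ _ fun j hj => IB.prod _ _ fun i _ => ?_
  have hj' : j + 1 ≤ K := by have := Finset.mem_range.mp hj; omega
  have hj2 : q * (j + 1) ≤ q * K := Nat.mul_le_mul_left q hj'
  obtain ⟨p, hp, hpq, hi⟩ := h i
  refine ((IB.lin ?_).mul (IB.lin ?_)).mul ((IB.geo ?_).pow 2)
  · have : ((j : ℚ) + D.al i)⁻¹ = (q : ℚ) / ((q * j + p : ℕ) : ℚ) := by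
      have h1 : ((q * j + p : ℕ) : ℚ) ≠ 0 := by exact_mod_cast (by omega : q * j + p ≠ 0)
      have h2 : (j : ℚ) + D.al i = ((q * j + p : ℕ) : ℚ) / q := by
        rw [hi]; push_cast; field_simp
      rw [h2, inv_div]
    rw [this]
    exact key _ (by omega) (by rw [mul_add] at hj2; omega) q
  · have : ((j : ℚ) + (1 - D.al i))⁻¹ = (q : ℚ) / ((q * j + (q - p) : ℕ) : ℚ) := by
      have h1 : ((q * j + (q - p) : ℕ) : ℚ) ≠ 0 := by
        exact_mod_cast (by omega : q * j + (q - p) ≠ 0)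
      have h2 : (j : ℚ) + (1 - D.al i) = ((q * j + (q - p) : ℕ) : ℚ) / q := by
        rw [hi]; push_cast [Nat.cast_sub hpq.le]; field_simp
      rw [h2, inv_div]
    rw [this]
    exact key _ (by omega) (by rw [mul_add] at hj2; omega) q
  · have : ((j : ℚ) + 1)⁻¹ = ((1 : ℕ) : ℚ) / ((j + 1 : ℕ) : ℚ) := by push_cast; rw [one_div]
    rw [this]
    refine key _ (by omega) ?_ 1
    calc j + 1 ≤ q * (j + 1) := Nat.le_mul_of_pos_left _ hq
      _ ≤ q * K := hj2

/-- the integrality of the coefficients -/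
theorem coeff_mem (D : Dat) {q : ℕ} (hq : 0 < q)
    (h : ∀ i, ∃ p : ℕ, 0 < p ∧ p < q ∧ D.al i = p / q) {k K : ℕ} (hk : k ≤ K)
    (a l : Fin D.r) :
    (((D.lam.den * q ^ (4 * D.s)) ^ K * Nat.lcmUpto (q * K) ^ D.r : ℕ) : ℚ) *
      PowerSeries.coeff k (Hyp D a l) ∈ Zr := by
  rw [Hyp, PowerSeries.coeff_mk, Ak_eq, PowerSeries.coeff_mul, Finset.mul_sum]
  refine Subring.sum_mem _ fun p hp => ?_
  have hp' := Finset.HasAntidiagonal.mem_antidiagonal.mp hp
  rw [PowerSeries.coeff_C_mul]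
  have h1 : PowerSeries.coeff p.1 ((PowerSeries.C (k : ℚ) + PowerSeries.X) ^ (a : ℕ)) ∈ Zr := by
    have h2 : IB 1 ((PowerSeries.C (k : ℚ) + PowerSeries.X) ^ (a : ℕ)) := by
      refine IB.pow ?_ _
      intro m
      rw [map_add, PowerSeries.coeff_C, PowerSeries.coeff_X, Nat.cast_one, one_pow, one_mul]
      refine Subring.add_mem _ ?_ ?_
      · split_ifs
        · exact nat_mem k
        · exact Subring.zero_mem _
      · split_ifs
        · exact Subring.one_mem _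
        · exact Subring.zero_mem _
    simpa using h2 p.1
  have h2 := a0_mem D hq h k
  have h3 := gk_IB D hq h hk p.2
  have h4 : p.2 ≤ D.r := by have := l.2; omega
  have h5 : (((D.lam.den * q ^ (4 * D.s)) ^ K * Nat.lcmUpto (q * K) ^ D.r : ℕ) : ℚ) *
      (PowerSeries.coeff p.1 ((PowerSeries.C (k : ℚ) + PowerSeries.X) ^ (a : ℕ)) *
        (a0 D k * PowerSeries.coeff p.2 (gk D k))) =
      (((D.lam.den * q ^ (4 * D.s)) ^ (K - k) * Nat.lcmUpto (q * K) ^ (D.r - p.2) : ℕ) : ℚ) *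
      (PowerSeries.coeff p.1 ((PowerSeries.C (k : ℚ) + PowerSeries.X) ^ (a : ℕ)) *
        ((((D.lam.den * q ^ (4 * D.s) : ℕ) : ℚ) ^ k * a0 D k) *
        ((Nat.lcmUpto (q * K) : ℚ) ^ p.2 * PowerSeries.coeff p.2 (gk D k)))) := by
    have e1 : (D.lam.den * q ^ (4 * D.s)) ^ K = (D.lam.den * q ^ (4 * D.s)) ^ (K - k) *
        (D.lam.den * q ^ (4 * D.s)) ^ k := by rw [← pow_add, Nat.sub_add_cancel hk]
    have e2 : Nat.lcmUpto (q * K) ^ D.r = Nat.lcmUpto (q * K) ^ (D.r - p.2) *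
        Nat.lcmUpto (q * K) ^ p.2 := by rw [← pow_add, Nat.sub_add_cancel h4]
    rw [e1, e2]
    push_cast
    ring
  rw [h5]
  exact Subring.mul_mem _ (nat_mem _) (Subring.mul_mem _ h1 (Subring.mul_mem _ h2 h3))

/-! ### Growth -/

/-- the sum of the absolute values of the first coefficients -/
noncomputable def nl (R : ℕ) (f : PowerSeries ℚ) : ℚ := ∑ m ∈ range R, |PowerSeries.coeff m f|

theorem nl_nonneg (R : ℕ) (f : PowerSeries ℚ) : 0 ≤ nl R f :=
  Finset.sum_nonneg fun _ _ => abs_nonneg _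

theorem coeff_le_nl {R l : ℕ} (hl : l < R) (f : PowerSeries ℚ) :
    |PowerSeries.coeff l f| ≤ nl R f :=
  Finset.single_le_sum (f := fun m => |PowerSeries.coeff m f|) (fun _ _ => abs_nonneg _)
    (Finset.mem_range.mpr hl)

theorem nl_mul (R : ℕ) (f g : PowerSeries ℚ) : nl R (f * g) ≤ nl R f * nl R g := by
  calc nl R (f * g) ≤ ∑ m ∈ range R, ∑ k ∈ range (m + 1),
        |PowerSeries.coeff k f| * |PowerSeries.coeff (m - k) g| := by
        refine Finset.sum_le_sum fun m _ => ?_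
        rw [PowerSeries.coeff_mul, Finset.Nat.sum_antidiagonal_eq_sum_range_succ
          (fun a b => PowerSeries.coeff a f * PowerSeries.coeff b g)]
        refine (Finset.abs_sum_le_sum_abs _ _).trans (le_of_eq ?_)
        exact Finset.sum_congr rfl fun k _ => abs_mul _ _
    _ = ∑ m ∈ range R, ∑ k ∈ range (R - m),
        |PowerSeries.coeff m f| * |PowerSeries.coeff k g| :=
        Finset.sum_range_diag_flip R fun a b => |PowerSeries.coeff a f| * |PowerSeries.coeff b g|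
    _ ≤ ∑ m ∈ range R, ∑ k ∈ range R,
        |PowerSeries.coeff m f| * |PowerSeries.coeff k g| := by
        refine Finset.sum_le_sum fun m _ => Finset.sum_le_sum_of_subset_of_nonneg ?_ ?_
        · exact Finset.range_subset_range.mpr (Nat.sub_le R m)
        · intro k _ _
          positivity
    _ = nl R f * nl R g := by
        rw [nl, nl, Finset.sum_mul_sum]

theorem nl_one (R : ℕ) : nl R 1 ≤ 1 := by
  rw [nl]
  have h : ∀ m : ℕ, |PowerSeries.coeff m (1 : PowerSeries ℚ)| = if m = 0 then 1 else 0 := by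
    intro m
    rw [PowerSeries.coeff_one]
    split_ifs <;> simp
  rw [Finset.sum_congr rfl fun m _ => h m, Finset.sum_ite_eq']
  split_ifs <;> norm_num

theorem nl_prod_le {ι : Type*} (R : ℕ) (s : Finset ι) (f : ι → PowerSeries ℚ) :
    nl R (∏ i ∈ s, f i) ≤ ∏ i ∈ s, nl R (f i) := by
  classical
  induction s using Finset.induction_on with
  | empty => simpa using nl_one R
  | insert a s ha ih =>
    rw [Finset.prod_insert ha, Finset.prod_insert ha]
    exact (nl_mul R _ _).trans (mul_le_mul_of_nonneg_left ih (nl_nonneg R _))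

theorem nl_pow_le (R : ℕ) (f : PowerSeries ℚ) (n : ℕ) : nl R (f ^ n) ≤ nl R f ^ n := by
  induction n with
  | zero => simpa using nl_one R
  | succ n ih =>
    rw [pow_succ, pow_succ]
    exact (nl_mul R _ _).trans (mul_le_mul_of_nonneg_right ih (nl_nonneg R _))

theorem nl_add (R : ℕ) (f g : PowerSeries ℚ) : nl R (f + g) ≤ nl R f + nl R g := by
  rw [nl, nl, nl, ← Finset.sum_add_distrib]
  refine Finset.sum_le_sum fun m _ => ?_
  rw [map_add]
  exact abs_add_le _ _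

theorem nl_C (R : ℕ) {c : ℚ} (hc : 0 ≤ c) : nl R (PowerSeries.C c) ≤ c := by
  rw [nl]
  have h : ∀ m : ℕ, |PowerSeries.coeff m (PowerSeries.C c : PowerSeries ℚ)| =
      if m = 0 then c else 0 := by
    intro m
    rw [PowerSeries.coeff_C]
    split_ifs
    · exact abs_of_nonneg hc
    · simp
  rw [Finset.sum_congr rfl fun m _ => h m, Finset.sum_ite_eq']
  split_ifs
  · exact le_rfl
  · exact hc

theorem nl_X (R : ℕ) : nl R (PowerSeries.X : PowerSeries ℚ) ≤ 1 := by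
  rw [nl]
  have h : ∀ m : ℕ, |PowerSeries.coeff m (PowerSeries.X : PowerSeries ℚ)| =
      if m = 1 then 1 else 0 := by
    intro m
    rw [PowerSeries.coeff_X]
    split_ifs <;> simp
  rw [Finset.sum_congr rfl fun m _ => h m, Finset.sum_ite_eq']
  split_ifs <;> norm_num

theorem nl_CX (R : ℕ) {c : ℚ} (hc : 0 ≤ c) :
    nl R (PowerSeries.C c + PowerSeries.X) ≤ c + 1 :=
  (nl_add R _ _).trans (add_le_add (nl_C R hc) (nl_X R))

theorem nl_geo (R : ℕ) {c : ℚ} (hc : 0 ≤ c) (hc' : c ≤ 1) : nl R (geo c) ≤ R := by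
  rw [nl]
  calc _ ≤ ∑ m ∈ range R, (1 : ℚ) := by
        refine Finset.sum_le_sum fun m _ => ?_
        rw [geo, PowerSeries.coeff_mk, abs_pow, abs_neg, abs_of_nonneg hc]
        exact pow_le_one₀ hc hc'
    _ = R := by simp

theorem nl_Ak (D : Dat) (R k : ℕ) :
    nl R (Ak D k) ≤ (D.lam * (4 * (R : ℚ) ^ 2) ^ D.s) ^ k := by
  have hl := D.lam_pos.le
  refine (nl_prod_le R _ _).trans ?_
  refine (Finset.prod_le_prod (g := fun _ => D.lam * (4 * (R : ℚ) ^ 2) ^ D.s)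
    (fun _ _ => nl_nonneg R _) fun j _ => ?_).trans (le_of_eq (by simp))
  refine (nl_mul R _ _).trans (mul_le_mul (nl_C R hl) ?_ (nl_nonneg R _) hl)
  refine (nl_prod_le R _ _).trans ?_
  refine (Finset.prod_le_prod (g := fun _ => 4 * (R : ℚ) ^ 2)
    (fun _ _ => nl_nonneg R _) fun i _ => ?_).trans (le_of_eq (by simp))
  have h1 := D.al_pos i
  have h2 := D.al_lt i
  have hj : (0 : ℚ) ≤ j := by positivity
  have e3 : (j : ℚ) + 1 ≠ 0 := by positivity
  have f1 : nl R (PowerSeries.C ((j : ℚ) + D.al i) + PowerSeries.X) ≤ 2 * (j + 1) :=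
    (nl_CX R (by linarith)).trans (by linarith)
  have f2 : nl R (PowerSeries.C ((j : ℚ) + (1 - D.al i)) + PowerSeries.X) ≤ 2 * (j + 1) :=
    (nl_CX R (by linarith)).trans (by linarith)
  have f3 : nl R ((PowerSeries.C ((j : ℚ) + 1) + PowerSeries.X)⁻¹) ≤ ((j : ℚ) + 1)⁻¹ * R := by
    rw [C_add_X_inv e3]
    refine (nl_mul R _ _).trans (mul_le_mul (nl_C R (by positivity)) (nl_geo R (by positivity) ?_)
      (nl_nonneg R _) (by positivity))
    exact inv_le_one_of_one_le₀ (by linarith)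
  calc _ ≤ nl R (PowerSeries.C ((j : ℚ) + D.al i) + PowerSeries.X) *
        nl R (PowerSeries.C ((j : ℚ) + (1 - D.al i)) + PowerSeries.X) *
        nl R ((PowerSeries.C ((j : ℚ) + 1) + PowerSeries.X)⁻¹) ^ 2 := by
        refine (nl_mul R _ _).trans (mul_le_mul (nl_mul R _ _) (nl_pow_le R _ 2) (nl_nonneg R _)
          (mul_nonneg (nl_nonneg R _) (nl_nonneg R _)))
    _ ≤ (2 * (j + 1)) * (2 * (j + 1)) * (((j : ℚ) + 1)⁻¹ * R) ^ 2 := by
        refine mul_le_mul (mul_le_mul f1 f2 (nl_nonneg R _) (by positivity))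
          (pow_le_pow_left₀ (nl_nonneg R _) f3 2) (pow_nonneg (nl_nonneg R _) 2) (by positivity)
    _ = 4 * (R : ℚ) ^ 2 := by
        field_simp
        ring

theorem growth (D : Dat) (a l : Fin D.r) (k : ℕ) :
    |PowerSeries.coeff k (Hyp D a l)| ≤
      (2 ^ D.r * (D.lam * (4 * (D.r : ℚ) ^ 2) ^ D.s)) ^ k := by
  rw [Hyp, PowerSeries.coeff_mk]
  refine (coeff_le_nl l.2 _).trans ((nl_mul D.r _ _).trans ?_)
  rw [mul_pow]
  have hl := D.lam_pos.le
  refine mul_le_mul ?_ (nl_Ak D D.r k) (nl_nonneg _ _) (by positivity)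
  calc nl D.r ((PowerSeries.C (k : ℚ) + PowerSeries.X) ^ (a : ℕ))
      ≤ nl D.r (PowerSeries.C (k : ℚ) + PowerSeries.X) ^ (a : ℕ) := nl_pow_le _ _ _
    _ ≤ ((k : ℚ) + 1) ^ (a : ℕ) :=
        pow_le_pow_left₀ (nl_nonneg _ _) (nl_CX _ (by positivity)) _
    _ ≤ ((2 : ℚ) ^ k) ^ (a : ℕ) := by
        refine pow_le_pow_left₀ (by positivity) ?_ _
        have : k + 1 ≤ 2 ^ k := Nat.lt_two_pow_self
        exact_mod_cast this
    _ ≤ ((2 : ℚ) ^ k) ^ D.r :=
        pow_le_pow_right₀ (one_le_pow₀ (by norm_num)) a.2.le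
    _ = ((2 : ℚ) ^ D.r) ^ k := by rw [← pow_mul, ← pow_mul, mul_comm]

theorem lcmUpto_le : ∃ C : ℕ, 0 < C ∧ ∀ n : ℕ, Nat.lcmUpto n ≤ C ^ n := by
  obtain ⟨C, hC⟩ := exists_nat_ge (Real.exp (Real.log 4 + 4))
  refine ⟨C, ?_, fun n => ?_⟩
  · have : (0 : ℝ) < C := (Real.exp_pos _).trans_le hC
    exact_mod_cast this
  · have h1 : (Nat.lcmUpto n : ℝ) = Real.exp (Chebyshev.psi n) := by
      rw [Chebyshev.psi_eq_log_lcmUpto, Real.exp_log (by exact_mod_cast Nat.lcmUpto_pos n)]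
    have h2 : (Nat.lcmUpto n : ℝ) ≤ (C : ℝ) ^ n := by
      rw [h1]
      calc _ ≤ Real.exp ((Real.log 4 + 4) * n) :=
            Real.exp_le_exp.mpr (Chebyshev.psi_le_const_mul_self (by positivity))
        _ = Real.exp (Real.log 4 + 4) ^ n := by rw [mul_comm, Real.exp_nat_mul]
        _ ≤ _ := pow_le_pow_left₀ (Real.exp_pos _).le hC n
    exact_mod_cast h2

theorem hgt : HgtStmt := by
  intro D a l
  obtain ⟨q, hq, h⟩ := exists_q D
  obtain ⟨L, hL, hL'⟩ := lcmUpto_le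
  obtain ⟨G, hG⟩ := exists_nat_ge (2 ^ D.r * (D.lam * (4 * (D.r : ℚ) ^ 2) ^ D.s))
  have hden : 0 < D.lam.den := D.lam.den_pos
  obtain ⟨E, hE⟩ : ∃ E, E = D.lam.den * q ^ (4 * D.s) * L ^ (q * D.r) := ⟨_, rfl⟩
  have hE0 : 0 < E := by rw [hE]; positivity
  have hl := D.lam_pos.le
  refine ⟨G + E, by omega, fun k => ⟨?_, ?_⟩⟩
  · calc _ ≤ (2 ^ D.r * (D.lam * (4 * (D.r : ℚ) ^ 2) ^ D.s)) ^ k := growth D a l k
      _ ≤ ((G + E : ℕ) : ℚ) ^ k := by
          refine pow_le_pow_left₀ (by positivity) (hG.trans ?_) k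
          exact_mod_cast Nat.le_add_right G E
      _ ≤ ((G + E : ℕ) : ℚ) ^ (k + 1) := by
          refine pow_le_pow_right₀ ?_ (Nat.le_succ k)
          exact_mod_cast (by omega : 1 ≤ G + E)
  · refine ⟨(D.lam.den * q ^ (4 * D.s)) ^ k * Nat.lcmUpto (q * k) ^ D.r, ?_, ?_, fun i hi => ?_⟩
    · have := Nat.lcmUpto_pos (q * k)
      positivity
    · calc (D.lam.den * q ^ (4 * D.s)) ^ k * Nat.lcmUpto (q * k) ^ D.r
          ≤ (D.lam.den * q ^ (4 * D.s)) ^ k * (L ^ (q * k)) ^ D.r :=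
            Nat.mul_le_mul_left _ (Nat.pow_le_pow_left (hL' _) _)
        _ = E ^ k := by
            rw [hE, mul_pow _ (L ^ (q * D.r)), ← pow_mul, ← pow_mul, mul_right_comm q D.r k]
        _ ≤ (G + E) ^ k := Nat.pow_le_pow_left (Nat.le_add_left E G) k
        _ ≤ (G + E) ^ (k + 1) := Nat.pow_le_pow_right (by omega) (Nat.le_succ k)
    · exact mem_Zr.mp (coeff_mem D hq h hi a l)

end Pool.Agent.MT100.H19
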